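import Mathlib

set_option autoImplicit false

/-!
Theta functions for the square lattice `ℤ + ℤ I`: entire functions `f` with `f (z + 1) = f z` and
`f (z + I) = exp (-2 π I (n z + a)) f z`.
-/

namespace Pool.Agent.H796H

open Complex

/-- `Th n a`: theta functions of degree `n` and twist `a`. -/
def Th (n : ℤ) (a : ℂ) : Submodule ℂ (ℂ → ℂ) where
  carrier := {f | Differentiable ℂ f ∧ (∀ z, f (z + 1) = f z) ∧
    ∀ z, f (z + I) = exp (-2 * Real.pi * I * (n * z + a)) * f z}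
  zero_mem' := ⟨differentiable_const 0, fun _ => rfl, fun _ => by simp⟩
  add_mem' := by
    rintro f g ⟨hf, hf1, hf2⟩ ⟨hg, hg1, hg2⟩
    refine ⟨hf.add hg, fun z => by simp [hf1, hg1], fun z => ?_⟩
    simp only [Pi.add_apply, hf2, hg2, mul_add]
  smul_mem' := by
    rintro c f ⟨hf, hf1, hf2⟩
    refine ⟨hf.const_smul c, fun z => by simp [hf1], fun z => ?_⟩
    simp only [Pi.smul_apply, smul_eq_mul, hf2]
    ring

/-- (F1) Fourier bound. -/
def S_F1 : Prop := ∀ (n : ℤ) (a : ℂ), 1 ≤ n → FiniteDimensional ℂ (Th n a) ∧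
  (Module.finrank ℂ (Th n a) : ℤ) ≤ n

/-- (F2) a theta function of degree one with a zero at the origin. -/
def S_F2 : Prop := ∃ (e : ℂ) (th : ℂ → ℂ), th ∈ Th 1 e ∧ th ≠ 0 ∧ th 0 = 0

/-- (F0) every theta function of degree at least one has a zero. -/
def S_F0 : Prop := ∀ (n : ℤ) (a : ℂ) (f : ℂ → ℂ), 1 ≤ n → f ∈ Th n a → ∃ z, f z = 0

/-- (F3) base point freeness in degree at least two. -/
def S_F3 : Prop := ∀ (n : ℤ) (a p : ℂ), 2 ≤ n → ∃ f ∈ Th n a, f p ≠ 0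

/-- (F4) dimension. -/
def S_F4 : Prop := ∀ (n : ℤ) (a : ℂ), 1 ≤ n → (Module.finrank ℂ (Th n a) : ℤ) = n

/-- (F5) division, for a function `th` in `Th 1 e` vanishing at the origin. -/
def S_F5 : Prop := ∀ (e : ℂ) (th : ℂ → ℂ), th ∈ Th 1 e → th ≠ 0 → th 0 = 0 →
  ∀ (n : ℤ) (a p : ℂ) (f : ℂ → ℂ), 2 ≤ n → f ∈ Th n a → f p = 0 →
  ∃ g ∈ Th (n - 1) (a - e + p), ∀ z, f z = th (z - p) * g z

end Pool.Agent.H796H
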