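import Pool.Agent.H796H.Theta2

set_option autoImplicit false

namespace Pool.Agent.H796H

open Complex

theorem zeros_countable {f : ℂ → ℂ} (hf : Differentiable ℂ f) (hne : f ≠ 0) :
    {z | f z = 0}.Countable := by
  have hfa : AnalyticOnNhd ℂ f Set.univ := fun z _ => hf.analyticAt z
  obtain ⟨x, hx⟩ : ∃ x, f x ≠ 0 := by
    by_contra hcon
    push Not at hcon
    exact hne (funext hcon)
  have h1 := AnalyticOnNhd.preimage_zero_mem_codiscrete hfa hx
  have h2 : IsDiscrete {z | f z = 0} ∨ True := Or.inr trivial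
  have h3 : (f ⁻¹' {0}ᶜ)ᶜ = {z | f z = 0} := by
    ext z; simp
  rw [mem_codiscrete'] at h1
  rw [← h3]
  obtain ⟨h4, h5⟩ := h1
  apply (HereditarilyLindelofSpace.isLindelof _).countable_of_isDiscrete
  exact h5

theorem exists_t : ∃ t : ℂ, ∀ j : ℕ, 1 ≤ j → th (-((j : ℂ) * t)) ≠ 0 := by
  by_contra hcon
  push Not at hcon
  have hc : (⋃ j : ℕ, {t : ℂ | 1 ≤ j ∧ th (-((j : ℂ) * t)) = 0}).Countable := by
    apply Set.countable_iUnion
    intro j
    by_cases hj : 1 ≤ j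
    · have hj0 : (j : ℂ) ≠ 0 := by
        have : j ≠ 0 := by omega
        exact_mod_cast this
      have h1 := zeros_countable th_mem.1 th_ne
      refine (h1.image (fun z => -(z / (j : ℂ)))).mono ?_
      rintro t ⟨-, ht⟩
      refine ⟨-((j : ℂ) * t), ht, ?_⟩
      field_simp
    · have : {t : ℂ | 1 ≤ j ∧ th (-((j : ℂ) * t)) = 0} = ∅ := by
        ext t; simp [hj]
      rw [this]; exact Set.countable_empty
  have huniv : (⋃ j : ℕ, {t : ℂ | 1 ≤ j ∧ th (-((j : ℂ) * t)) = 0}) = Set.univ := by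
    ext t
    simp only [Set.mem_iUnion, Set.mem_ofPred_eq, Set.mem_univ, iff_true]
    exact hcon t
  rw [huniv] at hc
  exact not_countable_complex hc

/-- a basis of `Th 2 a` -/
theorem exists_pencil (a : ℂ) : ∃ u ∈ Th 2 a, ∃ v ∈ Th 2 a,
    (∀ c d : ℂ, c • u + d • v = 0 → c = 0 ∧ d = 0) ∧ ∀ f ∈ Th 2 a, ∃ c d : ℂ, f = c • u + d • v := by
  have := finTh (n := 2) (by norm_num) a
  have hd : Module.finrank ℂ (Th 2 a) = 2 := by exact_mod_cast dimTh (n := 2) (by norm_num) a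
  let b := Module.finBasisOfFinrankEq ℂ (Th 2 a) hd
  refine ⟨(b 0).1, (b 0).2, (b 1).1, (b 1).2, ?_, ?_⟩
  · intro c d h
    have h1 : c • b 0 + d • b 1 = 0 := Subtype.ext h
    have h2 := b.linearIndependent
    rw [Fintype.linearIndependent_iff] at h2
    have h3 := h2 ![c, d] (by simpa [Fin.sum_univ_two] using h1)
    exact ⟨h3 0, h3 1⟩
  · intro f hf
    refine ⟨b.repr ⟨f, hf⟩ 0, b.repr ⟨f, hf⟩ 1, ?_⟩
    have h1 := b.sum_repr ⟨f, hf⟩
    rw [Fin.sum_univ_two] at h1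
    exact (congrArg Subtype.val h1).symm

end Pool.Agent.H796H
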