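import Pool.Agent.H796H.Hom
import Pool.Agent.Helper676.Glue3
import Pool.Agent.Helper676.Iso
import Pool.Agent.H39H.Bm

set_option autoImplicit false

open Complex Module
open Pool.Agent.Helper272_HN
open HanHoch
open Pool.Agent.H39H

namespace Pool.Agent.H796H

variable {Q : ℂ}

theorem van_hom (S : ℂ) : ∀ P, Good Q S P → ∀ n,
    HVan n (homBim (LMod.of ℂ (A Q) (X Q P)) (LMod.of ℂ (A Q) (X Q S))) := by
  have p6 : Module.Projective (A Q) (GT Q 6 0) := proj6
  have p3 : Module.Projective (A Q) (GT Q 3 0) := proj3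
  have p0 : Module.Projective (A Q) (GT Q 0 0) := proj0
  have m6 : Module.Finite (A Q) (GT Q 6 0) := fin6
  have m3 : Module.Finite (A Q) (GT Q 3 0) := fin3
  have m0 : Module.Finite (A Q) (GT Q 0 0) := fin0
  have pp : Module.Projective (A Q) (GT Q 3 0 × GT Q 3 0) := inferInstance
  have mm : Module.Finite (A Q) (GT Q 3 0 × GT Q 3 0) := inferInstance
  exact van_points (k := ℂ) (A := A Q) (Pt := ℂ) (fun p => p + Q) (Good Q S)
    (fun p h => h.next) (fun p => X Q p) (fun p => I1 Q p) (fun p => GT Q 5 (p - eth))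
    (fun p => GT Q 1 (eth - p)) (GT Q 6 0) (GT Q 3 0 × GT Q 3 0) (GT Q 0 0) (X Q S)
    m6 p6 mm pp m0 p0
    (fun p => i1 Q p) (fun p => q1 Q p) (fun p => i2 Q p) (fun p => q2 Q p)
    (fun p => zP Q p) (fun p => sP Q p) (fun p => jP Q p) (fun p => q4 Q p)
    (fun p => i1_inj p) (fun p => q1_surj p) (fun p => ex1 p)
    (fun p => i2_inj p) (fun p => q2_surj p) (fun p => ex2 p)
    (fun p => zP_inj p) (fun p => sP_surj p) (fun p => ex3 p)
    (fun p => jP_inj p) (fun p => q4_surj p) (fun p => ex4 p)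
    (fun p hg f => hX hg f) (fun p hg χ hχ => hE1 hg χ hχ) (fun p hg χ => hE2 hg χ)

/-- identification of the two models of `Hom(X_R, X_S)` -/
def isoXX (R S : ℂ) : BIso (homBim (LMod.of ℂ (A Q) (X Q R)) (LMod.of ℂ (A Q) (X Q S)))
    (XX Q R S) where
  e := LinearEquiv.refl ℂ ((Fin 3 → ℂ) →ₗ[ℂ] (Fin 3 → ℂ))
  l := fun a v => rfl
  r := fun a v => rfl

theorem van_XX (hQ : ∀ j : ℕ, 1 ≤ j → th (-((j : ℂ) * Q)) ≠ 0) (R : ℂ) (n : ℕ) :
    HVan n (XX Q R (R - Q)) := by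
  refine HVan.iso (isoXX R (R - Q)) n (van_hom (R - Q) R ?_ n)
  intro j
  have := hQ (j + 1) (by omega)
  have e : R - Q - R - (j : ℂ) * Q = -(((j + 1 : ℕ) : ℂ) * Q) := by push_cast; ring
  rw [e]
  exact this

end Pool.Agent.H796H
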