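import Pool.Agent.H796H.Seq

set_option autoImplicit false

/-!
Homomorphisms from the projectives to the point modules (project HAN, section 3).
-/

open Complex Module
open Pool.Agent.Helper272_HN

namespace Pool.Agent.H796H

variable {Q : ℂ}

/-- the homomorphism `(p, q) ↦ c p(S)` -/
def hc (W : Submodule (A Q) G) (S c : ℂ) : W →ₗ[A Q] X Q S where
  toFun x := (fun i => c * x.1.1 i S : Fin 3 → ℂ)
  map_add' x y := by
    funext i
    show c * (x.1.1 i S + y.1.1 i S) = c * x.1.1 i S + c * y.1.1 i S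
    ring
  map_smul' a x := by
    rw [RingHom.id_apply]
    funext i
    show c * ((a • (x : G) : G).1 i) S = ∑ l, evb S a i l * (c * x.1.1 l S)
    rw [smul_G]
    show c * (∑ l, bm a i l * x.1.1 l) S = _
    rw [Finset.sum_apply, Finset.mul_sum]
    refine Finset.sum_congr rfl fun l _ => ?_
    show c * (bm a i l S * x.1.1 l S) = bm a i l S * (c * x.1.1 l S)
    ring

theorem hc_apply (W : Submodule (A Q) G) (S c : ℂ) (x : W) (i : Fin 3) :
    (show Fin 3 → ℂ from hc W S c x) i = c * x.1.1 i S := rfl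

theorem homE (j : Fin 3) (S : ℂ) (φ : GT Q (3 * ((j : ℕ) : ℤ)) 0 →ₗ[A Q] X Q S) :
    ∃ c : ℂ, φ = hc _ S c := by
  refine ⟨(show Fin 3 → ℂ from φ (epsE Q j)) j, ?_⟩
  refine LinearMap.ext fun x => ?_
  funext i
  have h1 : φ x = colA Q j x • φ (epsE Q j) := by
    rw [← map_smul, colA_epsE]
  rw [h1]
  show ∑ l, evb S (colA Q j x) i l * (show Fin 3 → ℂ from φ (epsE Q j)) l = _
  have h2 : ∀ l, evb S (colA Q j x) i l = if l = j then x.1.1 i S else 0 := by
    intro l
    unfold evb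
    rw [bm_colA]
    unfold colM
    split_ifs <;> rfl
  simp only [h2]
  rw [Finset.sum_eq_single j]
  · rw [if_pos rfl]
    exact mul_comm _ _
  · intro l _ hl
    rw [if_neg hl, zero_mul]
  · simp

theorem homE6 (S : ℂ) (φ : GT Q 6 0 →ₗ[A Q] X Q S) : ∃ c : ℂ, φ = hc _ S c := homE 2 S φ
theorem homE3 (S : ℂ) (φ : GT Q 3 0 →ₗ[A Q] X Q S) : ∃ c : ℂ, φ = hc _ S c := homE 1 S φ
theorem homE0 (S : ℂ) (φ : GT Q 0 0 →ₗ[A Q] X Q S) : ∃ c : ℂ, φ = hc _ S c := homE 0 S φ

/-- the pencil has no zero at `S`, in one of its two members -/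
theorem p_val (P S : ℂ) : pu P S ≠ 0 ∨ pv P S ≠ 0 := by
  by_cases h : pu P S = 0
  · exact Or.inr (noCommon (pu_mem P) (pv_mem P) (p_ind P) S h)
  · exact Or.inl h

/-- for a point `S` outside the forward orbit of `P` -/
def Good (Q S P : ℂ) : Prop := ∀ j : ℕ, th (S - P - (j : ℂ) * Q) ≠ 0

theorem Good.next {S P : ℂ} (h : Good Q S P) : Good Q S (P + Q) := by
  intro j
  have := h (j + 1)
  have e : S - (P + Q) - (j : ℂ) * Q = S - P - ((j + 1 : ℕ) : ℂ) * Q := by push_cast; ring
  rw [e]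
  exact this

theorem Good.thp {S P : ℂ} (h : Good Q S P) : thp P S ≠ 0 := by
  have := h 0
  simpa [Pool.Agent.H796H.thp] using this

/-- an element of `A e_2` supported in row 1 -/
theorem row1_mem {f : ℂ → ℂ} (hf : f ∈ Th 3 0) :
    ((fun i => if i = 1 then f else 0, 0) : G) ∈ GT Q 6 0 := by
  refine ⟨fun i => ?_, fun i => (Th _ _).zero_mem⟩
  show (if i = 1 then f else 0) ∈ _
  split_ifs with h
  · subst h
    exact Th_congr hf (by norm_num) rfl
  · exact (Th _ _).zero_mem

theorem hX {S P : ℂ} (hg : Good Q S P) (f : X Q P →ₗ[A Q] X Q S) : f = 0 := by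
  obtain ⟨c, hc1⟩ := homE6 S (f.comp (q1 Q P))
  have hc0 : c = 0 := by
    have key : ∀ w ∈ Th 2 (P - eth), w S ≠ 0 → c = 0 := by
      intro w hw hwS
      have hm : thp P * w ∈ Th 3 0 := Th_congr (Th_mul (thp_mem P) hw) (by norm_num) (by ring)
      have h1 := LinearMap.congr_fun hc1 ⟨_, row1_mem hm⟩
      have h2 : q1 Q P ⟨_, row1_mem hm⟩ = 0 := by
        funext i
        show (if i = 1 then thp P * w else 0) P = 0
        split_ifs
        · rw [Pi.mul_apply, thp_self, zero_mul]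
        · rfl
      rw [LinearMap.comp_apply, h2, map_zero] at h1
      have h3 := congrFun (f := (show Fin 3 → ℂ from (0 : X Q S))) h1 1
      have h4 : (0 : ℂ) = c * (thp P S * w S) := by
        rw [show (show Fin 3 → ℂ from (0 : X Q S)) 1 = 0 from rfl] at h3
        rw [h3]
        rfl
      rcases mul_eq_zero.1 h4.symm with h5 | h5
      · exact h5
      · rcases mul_eq_zero.1 h5 with h6 | h6
        · exact absurd h6 hg.thp
        · exact absurd h6 hwS
    rcases p_val P S with h | h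
    · exact key _ (pu_mem P) h
    · exact key _ (pv_mem P) h
  subst hc0
  refine LinearMap.ext fun x => ?_
  obtain ⟨y, rfl⟩ := q1_surj P x
  have h1 := LinearMap.congr_fun hc1 y
  rw [LinearMap.comp_apply] at h1
  rw [h1]
  funext i
  show (0 : ℂ) * _ = 0
  rw [zero_mul]

theorem hE1 {S P : ℂ} (hg : Good Q S P) (χ : (GT Q 3 0 × GT Q 3 0) →ₗ[A Q] X Q S)
    (hχ : ∀ x, χ (zP Q P (jP Q P x)) = 0) :
    ∃ ψ : GT Q 6 0 →ₗ[A Q] X Q S, ∀ x, ψ (i1 Q P (i2 Q P (sP Q P x))) = χ x := by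
  obtain ⟨c, hc1⟩ := homE3 S (χ.comp (LinearMap.inl (A Q) _ _))
  obtain ⟨d, hd1⟩ := homE3 S (χ.comp (LinearMap.inr (A Q) _ _))
  have hval : ∀ x i, (show Fin 3 → ℂ from χ x) i = c * x.1.1.1 i S + d * x.2.1.1 i S := by
    intro x i
    have e : x = LinearMap.inl (A Q) _ _ x.1 + LinearMap.inr (A Q) _ _ x.2 := by
      refine Prod.ext ?_ ?_
      · show x.1 = x.1 + 0
        rw [add_zero]
      · show x.2 = 0 + x.2
        rw [zero_add]
    have h1 := LinearMap.congr_fun hc1 x.1
    have h2 := LinearMap.congr_fun hd1 x.2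
    rw [LinearMap.comp_apply] at h1 h2
    conv_lhs => rw [e, map_add, h1, h2]
    rfl
  have hrel : d * pu P S = c * pv P S := by
    have h0 := hχ (epsE Q 0)
    have h1 := hval (zP Q P (jP Q P (epsE Q 0))) 0
    rw [h0] at h1
    rw [zP_11, zP_21] at h1
    have h2 : ((jP Q P (epsE Q 0) : GT Q 1 (eth - P)) : G).1 0 = thp P := by
      show thp P * u0 0 0 = thp P
      unfold u0
      rw [if_pos rfl, mul_one]
    rw [h2] at h1
    have h3 : (0 : ℂ) = c * (-(pv P S * thp P S)) + d * (pu P S * thp P S) := h1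
    have h4 : thp P S * (d * pu P S - c * pv P S) = 0 := by linear_combination -h3
    rcases mul_eq_zero.1 h4 with h5 | h5
    · exact absurd h5 hg.thp
    · exact sub_eq_zero.1 h5
  have hth := hg.thp
  obtain ⟨e, he1, he2⟩ : ∃ e : ℂ, e * (thp P S * pu P S) = c ∧ e * (thp P S * pv P S) = d := by
    rcases p_val P S with h | h
    · refine ⟨c / (thp P S * pu P S), by field_simp, ?_⟩
      field_simp
      linear_combination -hrel
    · refine ⟨d / (thp P S * pv P S), ?_, by field_simp⟩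
      field_simp
      linear_combination hrel
  refine ⟨hc _ S e, fun x => ?_⟩
  funext i
  refine Eq.trans ?_ (hval x i).symm
  show e * (thp P S * ((sP Q P x : GT Q 5 (P - eth)) : G).1 i S) = _
  rw [sP_fst]
  show e * (thp P S * (pu P S * x.1.1.1 i S + pv P S * x.2.1.1 i S)) = _
  rw [← he1, ← he2]
  ring

theorem hE2 {S P : ℂ} (hg : Good Q S P) (χ : GT Q 0 0 →ₗ[A Q] X Q S) :
    ∃ ψ : (GT Q 3 0 × GT Q 3 0) →ₗ[A Q] X Q S, ∀ x, ψ (zP Q P (jP Q P x)) = χ x := by
  obtain ⟨c, rfl⟩ := homE0 S χ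
  have hth := hg.thp
  obtain ⟨a, b, hab⟩ : ∃ a b : ℂ, (b * pu P S - a * pv P S) * thp P S = c := by
    rcases p_val P S with h | h
    · refine ⟨0, c / (pu P S * thp P S), ?_⟩
      field_simp
      ring
    · refine ⟨-(c / (pv P S * thp P S)), 0, ?_⟩
      field_simp
      ring
  refine ⟨LinearMap.coprod (hc _ S a) (hc _ S b), fun x => ?_⟩
  funext i
  show a * ((zP Q P (jP Q P x)).1 : G).1 i S + b * ((zP Q P (jP Q P x)).2 : G).1 i S =
    c * x.1.1 i S
  rw [zP_11, zP_21]
  show a * (-(pv P S * (thp P S * x.1.1 i S))) + b * (pu P S * (thp P S * x.1.1 i S)) =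
    c * x.1.1 i S
  rw [← hab]
  ring

/-! ### finiteness and scalar towers -/

theorem fin_E (j : Fin 3) : Module.Finite (A Q) (GT Q (3 * ((j : ℕ) : ℤ)) 0) := by
  refine Module.Finite.of_surjective (LinearMap.toSpanSingleton (A Q) _ (epsE Q j)) ?_
  intro x
  exact ⟨colA Q j x, colA_epsE j x⟩

theorem fin6 : Module.Finite (A Q) (GT Q 6 0) := fin_E 2
theorem fin3 : Module.Finite (A Q) (GT Q 3 0) := fin_E 1
theorem fin0 : Module.Finite (A Q) (GT Q 0 0) := fin_E 0

instance : IsScalarTower ℂ (A Q) G where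
  smul_assoc c a x := by
    show ((c • a : A Q) : Module.End ℂ G) x = c • ((a : Module.End ℂ G) x)
    rfl

instance instSubMod (W : Submodule (A Q) G) : Module ℂ W := Submodule.module' W

instance instSubTower (W : Submodule (A Q) G) : IsScalarTower ℂ (A Q) W where
  smul_assoc c a x := Subtype.ext (smul_assoc c a (x : G))

end Pool.Agent.H796H
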