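import Pool.Agent.H796H.Theta3
import Pool.Agent.Helper272_HN.Defs

set_option autoImplicit false

/-!
Left modules over the algebra `A Q` (project HAN).

* `GT Q m α` : the submodule of `G` of the `(p,q)` with `p i ∈ Th (m - 3 i) α`,
  `q i ∈ Th (12 + m - 3 i) (α - m Q)`;  `A e_j = GT Q (3 j) 0`;
* `mG s : G → G` the `A`-linear map `(p,q) ↦ (s p, τ(s) q)`;
* `I1 Q P` (the module `I'_P`), `I_P ≅ GT Q 5 (P - eth)`, `Z_P ≅ GT Q 1 (eth - P)`;
* `X Q P` : the point module `ℂ^3`.
-/

open Complex Module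
open Pool.Agent.Helper272_HN

namespace Pool.Agent.H796H

variable {Q : ℂ}

/-- a column of theta functions -/
def GT (Q : ℂ) (m : ℤ) (α : ℂ) : Submodule (A Q) G where
  carrier := {x | (∀ i : Fin 3, x.1 i ∈ Th (m - 3 * ((i : ℕ) : ℤ)) α) ∧
    ∀ i : Fin 3, x.2 i ∈ Th (12 + m - 3 * ((i : ℕ) : ℤ)) (α - m * Q)}
  add_mem' ha hb := ⟨fun i => (Th _ _).add_mem (ha.1 i) (hb.1 i),
    fun i => (Th _ _).add_mem (ha.2 i) (hb.2 i)⟩
  zero_mem' := ⟨fun _ => (Th _ _).zero_mem, fun _ => (Th _ _).zero_mem⟩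
  smul_mem' := by
    rintro a x ⟨h1, h2⟩
    rw [smul_G]
    have hb := bm_mem a
    have hn := nm_mem a
    refine ⟨fun i => ?_, fun i => ?_⟩
    · show (∑ l, bm a i l * x.1 l) ∈ Th (m - 3 * ((i : ℕ) : ℤ)) α
      refine Submodule.sum_mem _ fun l _ => ?_
      exact Th_congr (Th_mul (hb i l) (h1 l)) (by unfold dg; ring) (by ring)
    · show (∑ l, bm a i l * x.2 l) + (∑ l, nm a i l * tc Q x.1 l) ∈
        Th (12 + m - 3 * ((i : ℕ) : ℤ)) (α - m * Q)
      refine Submodule.add_mem _ ?_ ?_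
      · refine Submodule.sum_mem _ fun l _ => ?_
        exact Th_congr (Th_mul (hb i l) (h2 l)) (by unfold dg; ring) (by ring)
      · refine Submodule.sum_mem _ fun l _ => ?_
        exact Th_congr (Th_mul (hn i l) (tau_mem (h1 l) Q)) (by unfold dg; ring)
          (by push_cast; ring)

theorem mem_GT {m : ℤ} {α : ℂ} {x : G} : x ∈ GT Q m α ↔
    (∀ i : Fin 3, x.1 i ∈ Th (m - 3 * ((i : ℕ) : ℤ)) α) ∧
    ∀ i : Fin 3, x.2 i ∈ Th (12 + m - 3 * ((i : ℕ) : ℤ)) (α - m * Q) := Iff.rfl

/-- multiplication by a function -/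
def mG (Q : ℂ) (s : ℂ → ℂ) : G →ₗ[A Q] G where
  toFun x := (fun i => s * x.1 i, fun i => tau Q s * x.2 i)
  map_add' x y := by
    refine Prod.ext ?_ ?_ <;> funext i <;> exact mul_add _ _ _
  map_smul' a x := by
    rw [smul_G, RingHom.id_apply, smul_G]
    refine Prod.ext ?_ ?_
    · funext i z
      simp only [mv, Finset.sum_apply, Pi.mul_apply, Finset.mul_sum]
      exact Finset.sum_congr rfl fun l _ => by ring
    · funext i z
      simp only [mv, tc, Finset.sum_apply, Pi.mul_apply, Pi.add_apply, Finset.mul_sum, mul_add,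
        tau_apply]
      congr 1 <;> exact Finset.sum_congr rfl fun l _ => by ring

theorem mG_apply (s : ℂ → ℂ) (x : G) :
    mG Q s x = (fun i => s * x.1 i, fun i => tau Q s * x.2 i) := rfl

theorem mG_mem {m k : ℤ} {α β : ℂ} {m' : ℤ} {α' : ℂ} {s : ℂ → ℂ} (hs : s ∈ Th k β) {x : G}
    (hx : x ∈ GT Q m α) (hm : m' = m + k) (hα : α' = α + β) : mG Q s x ∈ GT Q m' α' := by
  subst hm; subst hα
  refine ⟨fun i => ?_, fun i => ?_⟩
  · exact Th_congr (Th_mul hs (hx.1 i)) (by ring) (by ring)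
  · exact Th_congr (Th_mul (tau_mem hs Q) (hx.2 i)) (by ring) (by push_cast; ring)

/-- the point module at `P` -/
def X (_Q _P : ℂ) : Type := Fin 3 → ℂ

instance (P : ℂ) : AddCommGroup (X Q P) := inferInstanceAs (AddCommGroup (Fin 3 → ℂ))

/-- evaluation of the matrix at a point -/
def evb (P : ℂ) (a : A Q) (i l : Fin 3) : ℂ := bm a i l P

theorem evb_mul (P : ℂ) (a b : A Q) (i j : Fin 3) :
    evb P (a * b) i j = ∑ l, evb P a i l * evb P b l j := by
  unfold evb
  rw [bm_mul]
  simp [mm, Finset.sum_apply]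

theorem evb_one (P : ℂ) (i j : Fin 3) : evb P (1 : A Q) i j = if i = j then 1 else 0 := by
  unfold evb
  rw [bm_one]
  unfold sc
  split_ifs <;> rfl

instance (P : ℂ) : Module (A Q) (X Q P) where
  smul a x := (fun i => ∑ l, evb P a i l * (show Fin 3 → ℂ from x) l : Fin 3 → ℂ)
  one_smul x := by
    funext i
    show ∑ l, evb P (1 : A Q) i l * (show Fin 3 → ℂ from x) l = _
    simp only [evb_one]
    rw [Finset.sum_eq_single i]
    · simp
    · intro l _ hl
      simp [Ne.symm hl]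
    · simp
  mul_smul a b x := by
    funext i
    show ∑ l, evb P (a * b) i l * (show Fin 3 → ℂ from x) l =
      ∑ l, evb P a i l * ∑ m, evb P b l m * (show Fin 3 → ℂ from x) m
    simp only [evb_mul, Finset.sum_mul, Finset.mul_sum]
    rw [Finset.sum_comm]
    exact Finset.sum_congr rfl fun l _ => Finset.sum_congr rfl fun m _ => by ring
  smul_zero a := by
    funext i
    show ∑ l, evb P a i l * (0 : ℂ) = 0
    simp
  smul_add a x y := by
    funext i
    show ∑ l, evb P a i l * ((show Fin 3 → ℂ from x) l + (show Fin 3 → ℂ from y) l) =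
      ∑ l, evb P a i l * (show Fin 3 → ℂ from x) l + ∑ l, evb P a i l * (show Fin 3 → ℂ from y) l
    rw [← Finset.sum_add_distrib]
    exact Finset.sum_congr rfl fun l _ => by ring
  add_smul a b x := by
    funext i
    show ∑ l, evb P (a + b) i l * (show Fin 3 → ℂ from x) l =
      ∑ l, evb P a i l * (show Fin 3 → ℂ from x) l + ∑ l, evb P b i l * (show Fin 3 → ℂ from x) l
    rw [← Finset.sum_add_distrib]
    refine Finset.sum_congr rfl fun l _ => ?_
    have : evb P (a + b) i l = evb P a i l + evb P b i l := rfl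
    rw [this]; ring
  zero_smul x := by
    funext i
    show ∑ l, evb P (0 : A Q) i l * (show Fin 3 → ℂ from x) l = 0
    have : ∀ l, evb P (0 : A Q) i l = 0 := fun l => rfl
    simp [this]

theorem smul_X (P : ℂ) (a : A Q) (x : X Q P) (i : Fin 3) :
    (show Fin 3 → ℂ from a • x) i = ∑ l, evb P a i l * (show Fin 3 → ℂ from x) l := rfl

instance (P : ℂ) : Module ℂ (X Q P) := inferInstanceAs (Module ℂ (Fin 3 → ℂ))

instance (P : ℂ) : FiniteDimensional ℂ (X Q P) := inferInstanceAs (FiniteDimensional ℂ (Fin 3 → ℂ))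

instance (P : ℂ) : IsScalarTower ℂ (A Q) (X Q P) where
  smul_assoc c a x := by
    funext i
    show ∑ l, evb P (c • a) i l * (show Fin 3 → ℂ from x) l =
      c * ∑ l, evb P a i l * (show Fin 3 → ℂ from x) l
    rw [Finset.mul_sum]
    refine Finset.sum_congr rfl fun l _ => ?_
    have : evb P (c • a) i l = c * evb P a i l := rfl
    rw [this]; ring

/-- the kernel `I'_P` of the evaluation on `A e_2` -/
def I1 (Q P : ℂ) : Submodule (A Q) G where
  carrier := {x | x ∈ GT Q 6 0 ∧ ∀ i, x.1 i P = 0}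
  add_mem' := by
    rintro x y ⟨h1, h2⟩ ⟨h3, h4⟩
    refine ⟨Submodule.add_mem _ h1 h3, fun i => ?_⟩
    show x.1 i P + y.1 i P = 0
    rw [h2, h4, add_zero]
  zero_mem' := ⟨Submodule.zero_mem _, fun _ => rfl⟩
  smul_mem' := by
    rintro a x ⟨h1, h2⟩
    refine ⟨Submodule.smul_mem _ a h1, fun i => ?_⟩
    rw [smul_G]
    show (∑ l, bm a i l * x.1 l) P = 0
    rw [Finset.sum_apply]
    exact Finset.sum_eq_zero fun l _ => by rw [Pi.mul_apply, h2, mul_zero]

/-! ### projectivity of `A e_j` -/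

/-- the generator of `A e_j` -/
def eps (j : Fin 3) : G := (u0 j, 0)

theorem eps_mem (j : Fin 3) : eps j ∈ GT Q (3 * ((j : ℕ) : ℤ)) 0 := by
  refine ⟨fun i => ?_, fun i => (Th _ _).zero_mem⟩
  show u0 j i ∈ _
  unfold u0
  split_ifs with h
  · subst h
    rw [sub_self]
    exact constTh 1
  · exact (Th _ _).zero_mem

theorem smul_eps (a : A Q) (j : Fin 3) : a • eps j = (fun i => bm a i j, fun i => nm a i j) := by
  rw [smul_G]
  show (mv (bm a) (u0 j), mv (bm a) 0 + mv (nm a) (tc Q (u0 j))) = _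
  rw [tc_u0, mv_zero, zero_add, mv_u0, mv_u0]

/-- the matrix with one nonzero column -/
def colM (j : Fin 3) (p : Col) : Mt := fun i l => if l = j then p i else 0

theorem mm_colM (b : Mt) (j : Fin 3) (p : Col) : mm b (colM j p) = colM j (mv b p) := by
  funext i l
  unfold mm colM mv
  split_ifs with h
  · rfl
  · simp

theorem tm_colM (j : Fin 3) (p : Col) : tm Q (colM j p) = colM j (tc Q p) := by
  funext i l
  unfold tm colM tc
  split_ifs with h
  · rfl
  · rfl

theorem colM_add (j : Fin 3) (p q : Col) : colM j (p + q) = colM j p + colM j q := by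
  funext i l
  show (if l = j then (p + q) i else 0) = (if l = j then p i else 0) + (if l = j then q i else 0)
  split_ifs <;> simp

theorem colM_memB (j : Fin 3) (x : GT Q (3 * ((j : ℕ) : ℤ)) 0) : colM j x.1.1 ∈ Bs :=
  fun i l => by
    unfold colM
    split_ifs with h
    · subst h; exact x.2.1 i
    · exact (Th _ _).zero_mem

theorem colM_memN (j : Fin 3) (x : GT Q (3 * ((j : ℕ) : ℤ)) 0) : colM j x.1.2 ∈ Ns Q :=
  fun i l => by
    unfold colM
    split_ifs with h
    · subst h; exact Th_congr (x.2.2 i) (by unfold dg; ring) (by push_cast; ring)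
    · exact (Th _ _).zero_mem

/-- `A e_j → A` -/
noncomputable def colA (Q : ℂ) (j : Fin 3) : GT Q (3 * ((j : ℕ) : ℤ)) 0 →ₗ[A Q] A Q where
  toFun x := mk (colM_memB j x) (colM_memN j x)
  map_add' x y := by
    apply ext_A
    · rw [bm_add, bm_mk, bm_mk, bm_mk]; exact colM_add _ _ _
    · rw [nm_add, nm_mk, nm_mk, nm_mk]; exact colM_add _ _ _
  map_smul' a x := by
    rw [RingHom.id_apply, smul_eq_mul]
    apply ext_A
    · rw [bm_mul, bm_mk, bm_mk, mm_colM]
      congr 1
      show ((a • (x : G)) : G).1 = _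
      rw [smul_G]
    · rw [nm_mul, nm_mk, nm_mk, bm_mk, mm_colM, tm_colM, mm_colM, ← colM_add]
      congr 1
      show ((a • (x : G)) : G).2 = _
      rw [smul_G]

theorem bm_colA (j : Fin 3) (x : GT Q (3 * ((j : ℕ) : ℤ)) 0) :
    bm (colA Q j x) = colM j x.1.1 := bm_mk (colM_memB j x) (colM_memN j x)

theorem nm_colA (j : Fin 3) (x : GT Q (3 * ((j : ℕ) : ℤ)) 0) :
    nm (colA Q j x) = colM j x.1.2 := nm_mk (colM_memB j x) (colM_memN j x)

theorem colA_eps (j : Fin 3) (x : GT Q (3 * ((j : ℕ) : ℤ)) 0) :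
    (colA Q j x) • eps j = (x : G) := by
  rw [smul_eps, bm_colA, nm_colA]
  refine Prod.ext ?_ ?_
  · funext i
    show (if j = j then x.1.1 i else 0) = _
    rw [if_pos rfl]
  · funext i
    show (if j = j then x.1.2 i else 0) = _
    rw [if_pos rfl]

/-- the generator, as an element of the module -/
def epsE (Q : ℂ) (j : Fin 3) : GT Q (3 * ((j : ℕ) : ℤ)) 0 := ⟨eps j, eps_mem j⟩

theorem colA_epsE (j : Fin 3) (x : GT Q (3 * ((j : ℕ) : ℤ)) 0) : (colA Q j x) • epsE Q j = x :=
  Subtype.ext (colA_eps j x)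

theorem proj_E (j : Fin 3) : Module.Projective (A Q) (GT Q (3 * ((j : ℕ) : ℤ)) 0) := by
  refine Module.Projective.of_split (colA Q j)
    (LinearMap.toSpanSingleton (A Q) _ (epsE Q j)) ?_
  refine LinearMap.ext fun x => ?_
  show (colA Q j x) • epsE Q j = x
  exact colA_epsE j x

end Pool.Agent.H796H
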