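import Pool.Agent.H796H.Mods

set_option autoImplicit false

/-!
The four exact sequences of left modules (project HAN, paper 207, section 2).
-/

open Complex Module
open Pool.Agent.Helper272_HN

namespace Pool.Agent.H796H

variable {Q : ℂ}

instance instSubGrp (W : Submodule (A Q) G) : AddCommGroup W :=
  Module.addCommMonoidToAddCommGroup (A Q)

/-- basis of `Th 2 (P - eth)` -/
noncomputable def pu (P : ℂ) : ℂ → ℂ := (exists_pencil (P - eth)).choose
theorem pu_mem (P : ℂ) : pu P ∈ Th 2 (P - eth) := (exists_pencil (P - eth)).choose_spec.1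
noncomputable def pv (P : ℂ) : ℂ → ℂ := (exists_pencil (P - eth)).choose_spec.2.choose
theorem pv_mem (P : ℂ) : pv P ∈ Th 2 (P - eth) := (exists_pencil (P - eth)).choose_spec.2.choose_spec.1
theorem p_ind (P : ℂ) : ∀ c d : ℂ, c • pu P + d • pv P = 0 → c = 0 ∧ d = 0 :=
  (exists_pencil (P - eth)).choose_spec.2.choose_spec.2.1
theorem p_span (P : ℂ) : ∀ f ∈ Th 2 (P - eth), ∃ c d : ℂ, f = c • pu P + d • pv P :=
  (exists_pencil (P - eth)).choose_spec.2.choose_spec.2.2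

theorem pu_ne (P : ℂ) : pu P ≠ 0 := by
  intro h
  exact one_ne_zero (p_ind P 1 0 (by rw [h]; simp)).1

/-- the translated pencil is independent -/
theorem tp_ind (Q P : ℂ) : ∀ c d : ℂ, c • tau Q (pu P) + d • tau Q (pv P) = 0 → c = 0 ∧ d = 0 := by
  intro c d h
  apply p_ind P
  funext z
  have := congrFun h (z + Q)
  simpa [tau] using this

theorem tau_ne (Q : ℂ) {f : ℂ → ℂ} (hf : f ≠ 0) : tau Q f ≠ 0 := by
  intro h
  apply hf
  funext z
  have := congrFun h (z + Q)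
  simpa [tau] using this

theorem tau_thp (Q P : ℂ) : tau Q (thp P) = thp (P + Q) := by
  funext z
  show th (z - Q - P) = th (z - (P + Q))
  congr 1; ring

/-- multiplication by a theta function, between the modules `GT` -/
def mR {k : ℤ} {β : ℂ} {s : ℂ → ℂ} (hs : s ∈ Th k β) (m : ℤ) (α : ℂ) (m' : ℤ) (α' : ℂ)
    (hm : m' = m + k) (hα : α' = α + β) : GT Q m α →ₗ[A Q] GT Q m' α' :=
  LinearMap.restrict (mG Q s) (fun _ hx => mG_mem hs hx hm hα)

theorem mR_coe {k : ℤ} {β : ℂ} {s : ℂ → ℂ} (hs : s ∈ Th k β) (m : ℤ) (α : ℂ) (m' : ℤ) (α' : ℂ)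
    (hm : m' = m + k) (hα : α' = α + β) (x : GT Q m α) :
    ((mR hs m α m' α' hm hα x : GT Q m' α') : G) = mG Q s x := rfl

theorem mG_inj {k : ℤ} {β : ℂ} {s : ℂ → ℂ} (hs : s ∈ Th k β) (hs0 : s ≠ 0) {m : ℤ} {α : ℂ}
    {x : G} (hx : x ∈ GT Q m α) (h : mG Q s x = 0) : x = 0 := by
  refine Prod.ext ?_ ?_
  · funext i
    have h1 : s * x.1 i = 0 := congrFun (congrArg Prod.fst h) i
    exact (ent_mul hs.1 (hx.1 i).1 h1).resolve_left hs0
  · funext i
    have h1 : tau Q s * x.2 i = 0 := congrFun (congrArg Prod.snd h) i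
    exact (ent_mul (tau_mem hs Q).1 (hx.2 i).1 h1).resolve_left (tau_ne Q hs0)

theorem mR_inj {k : ℤ} {β : ℂ} {s : ℂ → ℂ} (hs : s ∈ Th k β) (hs0 : s ≠ 0) (m : ℤ) (α : ℂ)
    (m' : ℤ) (α' : ℂ) (hm : m' = m + k) (hα : α' = α + β) :
    Function.Injective (mR hs m α m' α' hm hα : GT Q m α →ₗ[A Q] GT Q m' α') := by
  rw [injective_iff_map_eq_zero]
  intro x hx
  apply Subtype.ext
  exact mG_inj hs hs0 x.2 (congrArg Subtype.val hx)

/-- evaluation of the first component -/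
def ev1 (Q P : ℂ) : G →ₗ[A Q] X Q P where
  toFun x := (fun i => x.1 i P : Fin 3 → ℂ)
  map_add' x y := rfl
  map_smul' a x := by
    rw [smul_G, RingHom.id_apply]
    funext i
    show (∑ l, bm a i l * x.1 l) P = _
    rw [Finset.sum_apply]
    rfl

theorem ev1_apply (P : ℂ) (x : G) (i : Fin 3) :
    (show Fin 3 → ℂ from ev1 Q P x) i = x.1 i P := rfl

/-- evaluation of the second component -/
def ev2 {W : Submodule (A Q) G} (R : ℂ) (h : ∀ x ∈ W, ∀ i, x.1 i (R - Q) = 0) :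
    W →ₗ[A Q] X Q R where
  toFun x := (fun i => x.1.2 i R : Fin 3 → ℂ)
  map_add' x y := rfl
  map_smul' a x := by
    rw [RingHom.id_apply]
    funext i
    show ((a • (x : G) : G).2 i) R = _
    rw [smul_G]
    show (∑ l, bm a i l * x.1.2 l) R + (∑ l, nm a i l * tc Q x.1.1 l) R = _
    rw [Finset.sum_apply, Finset.sum_apply]
    have : ∑ l, (nm a i l * tc Q x.1.1 l) R = 0 := by
      refine Finset.sum_eq_zero fun l _ => ?_
      show nm a i l R * x.1.1 l (R - Q) = 0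
      rw [h x.1 x.2, mul_zero]
    rw [this, add_zero]
    rfl

theorem ev2_apply {W : Submodule (A Q) G} (R : ℂ) (h : ∀ x ∈ W, ∀ i, x.1 i (R - Q) = 0) (x : W)
    (i : Fin 3) : (show Fin 3 → ℂ from ev2 R h x) i = x.1.2 i R := rfl

/-! ### values -/

theorem exists_val {n : ℤ} (hn : 2 ≤ n) (a P c : ℂ) : ∃ f ∈ Th n a, f P = c := by
  obtain ⟨f, hf, hfP⟩ := bpf hn a P
  refine ⟨(c / f P) • f, (Th n a).smul_mem _ hf, ?_⟩
  show c / f P * f P = c
  field_simp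

theorem exists_val6 (i : Fin 3) (P c : ℂ) : ∃ f ∈ Th (6 - 3 * ((i : ℕ) : ℤ)) 0, f P = c := by
  fin_cases i
  · exact exists_val (by norm_num) 0 P c
  · exact exists_val (by norm_num) 0 P c
  · exact ⟨fun _ => c, by simpa using constTh c, rfl⟩

theorem div6 (i : Fin 3) (P : ℂ) {f : ℂ → ℂ} (hf : f ∈ Th (6 - 3 * ((i : ℕ) : ℤ)) 0)
    (h0 : f P = 0) : ∃ g ∈ Th (5 - 3 * ((i : ℕ) : ℤ)) (P - eth), f = thp P * g := by
  have hgen : 2 ≤ 6 - 3 * ((i : ℕ) : ℤ) → ∃ g ∈ Th (5 - 3 * ((i : ℕ) : ℤ)) (P - eth),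
      f = thp P * g := by
    intro hn
    obtain ⟨g, hg, h⟩ := divTh hn hf h0
    exact ⟨g, Th_congr hg (by ring) (by ring), h⟩
  fin_cases i
  · exact hgen (by norm_num)
  · exact hgen (by norm_num)
  · have hf' : f ∈ Th 0 0 := by simpa using hf
    obtain ⟨c, rfl⟩ := zeroTh hf'
    have hc : c = 0 := h0
    refine ⟨0, (Th _ _).zero_mem, ?_⟩
    subst hc
    funext z
    simp

/-! ### sequence 1 : `0 → I'_P → A e_2 → X_P → 0` -/

def i1 (Q P : ℂ) : I1 Q P →ₗ[A Q] GT Q 6 0 := Submodule.inclusion (fun _ hx => hx.1)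

theorem i1_inj (P : ℂ) : Function.Injective (i1 Q P) := Submodule.inclusion_injective _

def q1 (Q P : ℂ) : GT Q 6 0 →ₗ[A Q] X Q P := (ev1 Q P).domRestrict _

theorem q1_surj (P : ℂ) : Function.Surjective (q1 Q P) := by
  intro c
  choose f hf hfP using fun i => exists_val6 i P ((show Fin 3 → ℂ from c) i)
  refine ⟨⟨(f, 0), fun i => hf i, fun i => (Th _ _).zero_mem⟩, ?_⟩
  funext i
  exact hfP i

theorem ex1 (P : ℂ) : Function.Exact (i1 Q P) (q1 Q P) := by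
  intro y
  constructor
  · intro h
    refine ⟨⟨y.1, y.2, fun i => congrFun (f := (show Fin 3 → ℂ from q1 Q P y)) h i⟩, ?_⟩
    exact Subtype.ext rfl
  · rintro ⟨x, rfl⟩
    funext i
    exact x.2.2 i

/-! ### sequence 2 : `0 → I_P → I'_P → X_{P+Q} → 0` -/

noncomputable def i2 (Q P : ℂ) : GT Q 5 (P - eth) →ₗ[A Q] I1 Q P :=
  LinearMap.codRestrict (I1 Q P) ((mG Q (thp P)).domRestrict _) (fun x => by
    refine ⟨mG_mem (thp_mem P) x.2 (by norm_num) (by ring), fun i => ?_⟩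
    show thp P P * x.1.1 i P = 0
    rw [thp_self, zero_mul])

theorem i2_coe (P : ℂ) (x : GT Q 5 (P - eth)) : ((i2 Q P x : I1 Q P) : G) = mG Q (thp P) x := rfl

theorem i2_inj (P : ℂ) : Function.Injective (i2 Q P) := by
  rw [injective_iff_map_eq_zero]
  intro x hx
  apply Subtype.ext
  exact mG_inj (thp_mem P) (thp_ne P) x.2 (congrArg Subtype.val hx)

def q2 (Q P : ℂ) : I1 Q P →ₗ[A Q] X Q (P + Q) :=
  ev2 (P + Q) (fun x hx i => by rw [add_sub_cancel_right]; exact hx.2 i)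

theorem q2_surj (P : ℂ) : Function.Surjective (q2 Q P) := by
  intro c
  have hv : ∀ i : Fin 3, ∃ f ∈ Th (12 + 6 - 3 * ((i : ℕ) : ℤ)) (0 - ((6 : ℤ) : ℂ) * Q),
      f (P + Q) = (show Fin 3 → ℂ from c) i := fun i =>
    exists_val (by have := i.2; omega) _ _ _
  choose f hf hfP using hv
  refine ⟨⟨(0, f), ⟨fun i => (Th _ _).zero_mem, fun i => hf i⟩, fun i => rfl⟩, ?_⟩
  funext i
  exact hfP i

theorem ex2 (P : ℂ) : Function.Exact (i2 Q P) (q2 Q P) := by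
  intro y
  constructor
  · intro h
    have h2 : ∀ i, y.1.2 i (P + Q) = 0 := fun i =>
      congrFun (f := (show Fin 3 → ℂ from q2 Q P y)) h i
    choose g hg hgf using fun i => div6 i P (y.2.1.1 i) (y.2.2 i)
    have hq : ∀ i : Fin 3, ∃ k ∈ Th (12 + 5 - 3 * ((i : ℕ) : ℤ)) (P - eth - ((5 : ℤ) : ℂ) * Q),
        y.1.2 i = thp (P + Q) * k := by
      intro i
      obtain ⟨k, hk, h3⟩ := divTh (by have := i.2; omega) (y.2.1.2 i) (h2 i)
      exact ⟨k, Th_congr hk (by ring) (by push_cast; ring), h3⟩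
    choose k hk hkf using hq
    refine ⟨⟨(g, k), hg, hk⟩, ?_⟩
    apply Subtype.ext
    rw [i2_coe, mG_apply, tau_thp]
    refine Prod.ext ?_ ?_
    · funext i; exact (hgf i).symm
    · funext i; exact (hkf i).symm
  · rintro ⟨x, rfl⟩
    funext i
    show (tau Q (thp P) * x.1.2 i) (P + Q) = 0
    rw [tau_thp, Pi.mul_apply, thp_self, zero_mul]

/-! ### sequence 3 : `0 → Z_P → (A e_1)^2 → I_P → 0` -/

noncomputable def sP (Q P : ℂ) : (GT Q 3 0 × GT Q 3 0) →ₗ[A Q] GT Q 5 (P - eth) :=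
  LinearMap.coprod (mR (pu_mem P) 3 0 5 (P - eth) (by norm_num) (by ring))
    (mR (pv_mem P) 3 0 5 (P - eth) (by norm_num) (by ring))

noncomputable def zP (Q P : ℂ) : GT Q 1 (eth - P) →ₗ[A Q] (GT Q 3 0 × GT Q 3 0) :=
  LinearMap.prod (-(mR (pv_mem P) 1 (eth - P) 3 0 (by norm_num) (by ring)))
    (mR (pu_mem P) 1 (eth - P) 3 0 (by norm_num) (by ring))

theorem zP_inj (P : ℂ) : Function.Injective (zP Q P) := by
  rw [injective_iff_map_eq_zero]
  intro x hx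
  have h2 := congrArg Prod.snd hx
  exact mR_inj (pu_mem P) (pu_ne P) 1 (eth - P) 3 0 (by norm_num) (by ring)
    (h2.trans (map_zero (mR (Q := Q) (pu_mem P) 1 (eth - P) 3 0 (by norm_num) (by ring))).symm)

theorem ker3 (i : Fin 3) {P a : ℂ} {u v p q : ℂ → ℂ} (hu : u ∈ Th 2 a) (hv : v ∈ Th 2 a)
    (hind : ∀ c d : ℂ, c • u + d • v = 0 → c = 0 ∧ d = 0) (ha : a = P - eth)
    (hp : p ∈ Th (3 - 3 * ((i : ℕ) : ℤ)) 0) (hq : q ∈ Th (3 - 3 * ((i : ℕ) : ℤ)) 0)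
    (h : p * u + q * v = 0) :
    ∃ f ∈ Th (1 - 3 * ((i : ℕ) : ℤ)) (eth - P), p = -(f * v) ∧ q = f * u := by
  subst ha
  fin_cases i
  · obtain ⟨f, hf, h1, h2⟩ := pencil_ker (n := 3) le_rfl hu hv hind (by simpa using hp)
      (by simpa using hq) h
    exact ⟨f, Th_congr hf (by norm_num) (by ring), h1, h2⟩
  · have hp' : p ∈ Th 0 0 := by simpa using hp
    have hq' : q ∈ Th 0 0 := by simpa using hq
    obtain ⟨c, rfl⟩ := zeroTh hp'
    obtain ⟨d, rfl⟩ := zeroTh hq'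
    obtain ⟨rfl, rfl⟩ := hind c d (by
      rw [← h]; funext z; simp)
    refine ⟨0, (Th _ _).zero_mem, ?_, ?_⟩ <;> funext z <;> simp
  · have hp' : p = 0 := negTh (n := 3 - 3 * ((2 : ℕ) : ℤ)) (by norm_num) hp
    have hq' : q = 0 := negTh (n := 3 - 3 * ((2 : ℕ) : ℤ)) (by norm_num) hq
    refine ⟨0, (Th _ _).zero_mem, ?_, ?_⟩
    · rw [hp']; simp
    · rw [hq']; simp

theorem onto5 (i : Fin 3) (P : ℂ) {h : ℂ → ℂ} (hh : h ∈ Th (5 - 3 * ((i : ℕ) : ℤ)) (P - eth)) :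
    ∃ p ∈ Th (3 - 3 * ((i : ℕ) : ℤ)) 0, ∃ q ∈ Th (3 - 3 * ((i : ℕ) : ℤ)) 0,
      h = p * pu P + q * pv P := by
  fin_cases i
  · obtain ⟨p, hp, q, hq, e⟩ := pencil_onto (n := 3) (c := 0) le_rfl (pu_mem P) (pv_mem P)
      (p_ind P) (h := h) (Th_congr hh (by norm_num) (by ring))
    exact ⟨p, by simpa using hp, q, by simpa using hq, e⟩
  · have hh' : h ∈ Th 2 (P - eth) := Th_congr hh (by norm_num) rfl
    obtain ⟨c, d, e⟩ := p_span P h hh'
    refine ⟨fun _ => c, by simpa using constTh c, fun _ => d, by simpa using constTh d, ?_⟩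
    rw [e]
    funext z
    simp
  · have hh' : h = 0 := negTh (n := 5 - 3 * ((2 : ℕ) : ℤ)) (by norm_num) hh
    refine ⟨0, (Th _ _).zero_mem, 0, (Th _ _).zero_mem, ?_⟩
    rw [hh']; simp

theorem sP_fst (P : ℂ) (x : GT Q 3 0 × GT Q 3 0) (i : Fin 3) :
    ((sP Q P x : GT Q 5 (P - eth)) : G).1 i = pu P * x.1.1.1 i + pv P * x.2.1.1 i := rfl

theorem sP_snd (P : ℂ) (x : GT Q 3 0 × GT Q 3 0) (i : Fin 3) :
    ((sP Q P x : GT Q 5 (P - eth)) : G).2 i =
      tau Q (pu P) * x.1.1.2 i + tau Q (pv P) * x.2.1.2 i := rfl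

theorem zP_11 (P : ℂ) (x : GT Q 1 (eth - P)) (i : Fin 3) :
    ((zP Q P x).1 : G).1 i = -(pv P * x.1.1 i) := rfl
theorem zP_12 (P : ℂ) (x : GT Q 1 (eth - P)) (i : Fin 3) :
    ((zP Q P x).1 : G).2 i = -(tau Q (pv P) * x.1.2 i) := rfl
theorem zP_21 (P : ℂ) (x : GT Q 1 (eth - P)) (i : Fin 3) :
    ((zP Q P x).2 : G).1 i = pu P * x.1.1 i := rfl
theorem zP_22 (P : ℂ) (x : GT Q 1 (eth - P)) (i : Fin 3) :
    ((zP Q P x).2 : G).2 i = tau Q (pu P) * x.1.2 i := rfl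

theorem sP_surj (P : ℂ) : Function.Surjective (sP Q P) := by
  intro y
  choose p hp q hq e using fun i => onto5 i P (y.2.1 i)
  have h2 : ∀ i : Fin 3, ∃ r ∈ Th (12 + 3 - 3 * ((i : ℕ) : ℤ)) (0 - ((3 : ℤ) : ℂ) * Q),
      ∃ s ∈ Th (12 + 3 - 3 * ((i : ℕ) : ℤ)) (0 - ((3 : ℤ) : ℂ) * Q),
      y.1.2 i = r * tau Q (pu P) + s * tau Q (pv P) := by
    intro i
    exact pencil_onto (by have := i.2; omega) (tau_mem (pu_mem P) Q) (tau_mem (pv_mem P) Q)
      (tp_ind Q P) (Th_congr (y.2.2 i) (by ring) (by push_cast; ring))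
  choose r hr s hs e2 using h2
  refine ⟨(⟨(p, r), hp, hr⟩, ⟨(q, s), hq, hs⟩), ?_⟩
  apply Subtype.ext
  refine Prod.ext ?_ ?_
  · funext i
    rw [sP_fst, e i]
    ring
  · funext i
    rw [sP_snd, e2 i]
    ring

theorem ex3 (P : ℂ) : Function.Exact (zP Q P) (sP Q P) := by
  intro y
  constructor
  · intro h
    have h1 : ∀ i, y.1.1.1 i * pu P + y.2.1.1 i * pv P = 0 := by
      intro i
      have := congrFun (congrArg (fun t : GT Q 5 (P - eth) => (t : G).1) h) i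
      rw [← mul_comm (pu P), ← mul_comm (pv P)]
      exact this
    have h2 : ∀ i, y.1.1.2 i * tau Q (pu P) + y.2.1.2 i * tau Q (pv P) = 0 := by
      intro i
      have := congrFun (congrArg (fun t : GT Q 5 (P - eth) => (t : G).2) h) i
      rw [← mul_comm (tau Q (pu P)), ← mul_comm (tau Q (pv P))]
      exact this
    choose f hf hf1 hf2 using fun i =>
      ker3 i (pu_mem P) (pv_mem P) (p_ind P) rfl (y.1.2.1 i) (y.2.2.1 i) (h1 i)
    have h3 : ∀ i : Fin 3, ∃ g ∈ Th (12 + 1 - 3 * ((i : ℕ) : ℤ)) (eth - P - ((1 : ℤ) : ℂ) * Q),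
        y.1.1.2 i = -(g * tau Q (pv P)) ∧ y.2.1.2 i = g * tau Q (pu P) := by
      intro i
      obtain ⟨g, hg, e⟩ := pencil_ker (by have := i.2; omega) (tau_mem (pu_mem P) Q)
        (tau_mem (pv_mem P) Q) (tp_ind Q P) (y.1.2.2 i) (y.2.2.2 i) (h2 i)
      exact ⟨g, Th_congr hg (by ring) (by push_cast; ring), e⟩
    choose g hg hg1 hg2 using h3
    refine ⟨⟨(f, g), hf, hg⟩, ?_⟩
    refine Prod.ext ?_ ?_
    · apply Subtype.ext
      refine Prod.ext ?_ ?_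
      · funext i
        rw [zP_11, hf1 i, mul_comm]
      · funext i
        rw [zP_12, hg1 i, mul_comm]
    · apply Subtype.ext
      refine Prod.ext ?_ ?_
      · funext i
        rw [zP_21, hf2 i, mul_comm]
      · funext i
        rw [zP_22, hg2 i, mul_comm]
  · rintro ⟨x, rfl⟩
    apply Subtype.ext
    refine Prod.ext ?_ ?_
    · funext i
      rw [sP_fst, zP_11, zP_21]
      show _ = (0 : ℂ → ℂ)
      ring
    · funext i
      rw [sP_snd, zP_12, zP_22]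
      show _ = (0 : ℂ → ℂ)
      ring

/-! ### sequence 4 : `0 → A e_0 → Z_P → X_{P+Q} → 0` -/

noncomputable def jP (Q P : ℂ) : GT Q 0 0 →ₗ[A Q] GT Q 1 (eth - P) :=
  mR (thp_mem P) 0 0 1 (eth - P) (by norm_num) (by ring)

theorem jP_inj (P : ℂ) : Function.Injective (jP Q P) := mR_inj _ (thp_ne P) _ _ _ _ _ _

theorem Z_fst {P : ℂ} {x : G} (hx : x ∈ GT Q 1 (eth - P)) (i : Fin 3) :
    ∃ f ∈ Th (0 - 3 * ((i : ℕ) : ℤ)) 0, x.1 i = thp P * f := by
  fin_cases i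
  · have h1 : x.1 0 ∈ Th 1 (eth - P) := by simpa using hx.1 0
    obtain ⟨c, hc⟩ := oneTh h1 (thp_mem P) (thp_ne P)
    refine ⟨fun _ => c, by simpa using constTh c, ?_⟩
    show x.1 0 = _
    rw [hc]
    funext z
    simp [mul_comm]
  · refine ⟨0, (Th _ _).zero_mem, ?_⟩
    rw [mul_zero]
    exact negTh (n := 1 - 3 * ((1 : ℕ) : ℤ)) (by norm_num) (hx.1 1)
  · refine ⟨0, (Th _ _).zero_mem, ?_⟩
    rw [mul_zero]
    exact negTh (n := 1 - 3 * ((2 : ℕ) : ℤ)) (by norm_num) (hx.1 2)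

noncomputable def q4 (Q P : ℂ) : GT Q 1 (eth - P) →ₗ[A Q] X Q (P + Q) :=
  ev2 (P + Q) (fun x hx i => by
    rw [add_sub_cancel_right]
    obtain ⟨f, -, e⟩ := Z_fst hx i
    rw [e, Pi.mul_apply, thp_self, zero_mul])

theorem q4_surj (P : ℂ) : Function.Surjective (q4 Q P) := by
  intro c
  have hv : ∀ i : Fin 3, ∃ f ∈ Th (12 + 1 - 3 * ((i : ℕ) : ℤ)) (eth - P - ((1 : ℤ) : ℂ) * Q),
      f (P + Q) = (show Fin 3 → ℂ from c) i := fun i =>
    exists_val (by have := i.2; omega) _ _ _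
  choose f hf hfP using hv
  refine ⟨⟨(0, f), ⟨fun i => (Th _ _).zero_mem, fun i => hf i⟩⟩, ?_⟩
  funext i
  exact hfP i

theorem ex4 (P : ℂ) : Function.Exact (jP Q P) (q4 Q P) := by
  intro y
  constructor
  · intro h
    have h2 : ∀ i, y.1.2 i (P + Q) = 0 := fun i =>
      congrFun (f := (show Fin 3 → ℂ from q4 Q P y)) h i
    choose g hg hgf using fun i => Z_fst y.2 i
    have hq : ∀ i : Fin 3, ∃ k ∈ Th (12 + 0 - 3 * ((i : ℕ) : ℤ)) (0 - ((0 : ℤ) : ℂ) * Q),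
        y.1.2 i = thp (P + Q) * k := by
      intro i
      obtain ⟨k, hk, h3⟩ := divTh (by have := i.2; omega) (y.2.2 i) (h2 i)
      exact ⟨k, Th_congr hk (by ring) (by push_cast; ring), h3⟩
    choose k hk hkf using hq
    refine ⟨⟨(g, k), hg, hk⟩, ?_⟩
    apply Subtype.ext
    show mG Q (thp P) (g, k) = y.1
    rw [mG_apply, tau_thp]
    refine Prod.ext ?_ ?_
    · funext i; exact (hgf i).symm
    · funext i; exact (hkf i).symm
  · rintro ⟨x, rfl⟩
    funext i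
    show (tau Q (thp P) * x.1.2 i) (P + Q) = 0
    rw [tau_thp, Pi.mul_apply, thp_self, zero_mul]

/-! ### projectivity -/

theorem proj6 : Module.Projective (A Q) (GT Q 6 0) := proj_E (Q := Q) 2
theorem proj3 : Module.Projective (A Q) (GT Q 3 0) := proj_E (Q := Q) 1
theorem proj0 : Module.Projective (A Q) (GT Q 0 0) := proj_E (Q := Q) 0

end Pool.Agent.H796H
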