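import Pool.Agent.H796H.TDefs

set_option autoImplicit false

namespace Pool.Agent.H796H

open Complex

/-- Entire functions have no zero divisors. -/
theorem ent_mul_eq_zero {f g : ℂ → ℂ} (hf : Differentiable ℂ f) (hg : Differentiable ℂ g)
    (h : ∀ z, f z * g z = 0) : f = 0 ∨ g = 0 := by
  have hfa : AnalyticOnNhd ℂ f Set.univ := fun z _ => hf.analyticAt z
  have hga : AnalyticOnNhd ℂ g Set.univ := fun z _ => hg.analyticAt z
  rcases AnalyticOnNhd.eq_zero_or_eq_zero_of_mul_eq_zero hfa hga (by intro z _; exact h z)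
    isPreconnected_univ with h1 | h1
  · left; funext z; exact h1 z (Set.mem_univ z)
  · right; funext z; exact h1 z (Set.mem_univ z)

theorem mem_Th {n : ℤ} {a : ℂ} {f : ℂ → ℂ} : f ∈ Th n a ↔ Differentiable ℂ f ∧
    (∀ z, f (z + 1) = f z) ∧ ∀ z, f (z + I) = exp (-2 * Real.pi * I * (n * z + a)) * f z :=
  Iff.rfl

theorem Th.diff {n : ℤ} {a : ℂ} {f : ℂ → ℂ} (h : f ∈ Th n a) : Differentiable ℂ f := h.1

theorem Th.mul {n m : ℤ} {a b : ℂ} {f g : ℂ → ℂ} (hf : f ∈ Th n a) (hg : g ∈ Th m b) :
    (fun z => f z * g z) ∈ Th (n + m) (a + b) := by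
  obtain ⟨h1, h2, h3⟩ := hf
  obtain ⟨k1, k2, k3⟩ := hg
  refine ⟨h1.mul k1, fun z => by simp [h2, k2], fun z => ?_⟩
  simp only [h3, k3]
  have : exp (-2 * Real.pi * I * (((n + m : ℤ) : ℂ) * z + (a + b))) =
      exp (-2 * Real.pi * I * (n * z + a)) * exp (-2 * Real.pi * I * (m * z + b)) := by
    rw [← Complex.exp_add]; congr 1; push_cast; ring
  rw [this]; ring

theorem Th.shift {n : ℤ} {a : ℂ} {f : ℂ → ℂ} (hf : f ∈ Th n a) (p : ℂ) :
    (fun z => f (z - p)) ∈ Th n (a - n * p) := by
  obtain ⟨h1, h2, h3⟩ := hf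
  refine ⟨h1.comp (differentiable_id.sub_const p), fun z => ?_, fun z => ?_⟩
  · have : z + 1 - p = (z - p) + 1 := by ring
    simp only [this, h2]
  · have : z + I - p = (z - p) + I := by ring
    simp only [this, h3]
    congr 2; ring

theorem Th.congr {n m : ℤ} {a b : ℂ} {f g : ℂ → ℂ} (hf : f ∈ Th n a) (hn : n = m) (ha : a = b)
    (hfg : ∀ z, f z = g z) : g ∈ Th m b := by
  have : f = g := funext hfg
  subst hn; subst ha; subst this; exact hf

/-- translate of `th`, as an element of `Th 1 a` -/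
theorem Th.one {e : ℂ} {th : ℂ → ℂ} (hth : th ∈ Th 1 e) (p : ℂ) :
    (fun z => th (z - p)) ∈ Th 1 (e - p) :=
  Th.congr (Th.shift hth p) rfl (by push_cast; ring) (fun _ => rfl)

theorem S_F3_of (h2 : S_F2) : S_F3 := by
  obtain ⟨e, th, hth, hne, -⟩ := h2
  have hpt : ∃ w, th w ≠ 0 := by
    by_contra hcon
    push_neg at hcon
    exact hne (funext hcon)
  obtain ⟨w, hw⟩ := hpt
  intro n a p hn
  obtain ⟨k, rfl⟩ : ∃ k : ℕ, n = (k : ℤ) + 2 := ⟨(n - 2).toNat, by omega⟩
  clear hn
  induction k generalizing a with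
  | zero =>
    -- two factors
    have key : ∃ x, th (p - x) * th (p - (2 * e - a - x)) ≠ 0 := by
      by_contra hcon
      push_neg at hcon
      have hd1 : Differentiable ℂ (fun x => th (p - x)) :=
        hth.1.comp ((differentiable_const p).sub differentiable_id)
      have hd2 : Differentiable ℂ (fun x => th (p - (2 * e - a - x))) :=
        hth.1.comp ((differentiable_const p).sub ((differentiable_const _).sub differentiable_id))
      rcases ent_mul_eq_zero hd1 hd2 hcon with h | h
      · have := congrFun h (p - w)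
        simp only [Pi.zero_apply] at this
        rw [show p - (p - w) = w by ring] at this
        exact hw this
      · have := congrFun h (w - p + (2 * e - a))
        simp only [Pi.zero_apply] at this
        rw [show p - (2 * e - a - (w - p + (2 * e - a))) = w by ring] at this
        exact hw this
    obtain ⟨x, hx⟩ := key
    refine ⟨fun z => th (z - x) * th (z - (2 * e - a - x)), ?_, hx⟩
    exact Th.congr (Th.mul (Th.one hth x) (Th.one hth (2 * e - a - x))) (by norm_num) (by ring)
      (fun _ => rfl)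
  | succ k ih =>
    obtain ⟨f, hf, hfp⟩ := ih (a - (e - (p - w)))
    refine ⟨fun z => f z * th (z - (p - w)), ?_, ?_⟩
    · exact Th.congr (Th.mul hf (Th.one hth (p - w))) (by push_cast; ring) (by ring) (fun _ => rfl)
    · simp only
      rw [show p - (p - w) = w by ring]
      exact mul_ne_zero hfp hw

/-- multiplication by a fixed function as a linear map between theta spaces -/
def mulL {n m k : ℤ} {a b c : ℂ} (g : ℂ → ℂ) (hg : g ∈ Th m b) (hk : n + m = k) (hc : a + b = c) :
    Th n a →ₗ[ℂ] Th k c where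
  toFun f := ⟨fun z => f.1 z * g z, Th.congr (Th.mul f.2 hg) hk hc (fun _ => rfl)⟩
  map_add' f f' := by
    apply Subtype.ext; funext z
    simp only [Submodule.coe_add, Pi.add_apply]; ring
  map_smul' r f := by
    apply Subtype.ext; funext z
    simp only [Submodule.coe_smul, Pi.smul_apply, smul_eq_mul, RingHom.id_apply]; ring

theorem mulL_inj {n m k : ℤ} {a b c : ℂ} (g : ℂ → ℂ) (hg : g ∈ Th m b) (hk : n + m = k)
    (hc : a + b = c) (hne : g ≠ 0) : Function.Injective (mulL g hg hk hc : Th n a →ₗ[ℂ] Th k c) := by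
  rw [← LinearMap.ker_eq_bot, LinearMap.ker_eq_bot']
  intro f hf
  have h1 : ∀ z, f.1 z * g z = 0 := fun z => congrFun (congrArg Subtype.val hf) z
  rcases ent_mul_eq_zero f.2.1 hg.1 h1 with h | h
  · exact Subtype.ext h
  · exact absurd h hne

/-- evaluation at a point -/
def evL (n : ℤ) (a p : ℂ) : Th n a →ₗ[ℂ] ℂ where
  toFun f := f.1 p
  map_add' f f' := rfl
  map_smul' r f := rfl

theorem dim_step (h1 : S_F1) (h2 : S_F2) {n : ℤ} {a p : ℂ} (hn : 2 ≤ n) :
    Module.finrank ℂ (LinearMap.ker (evL n a p)) + 1 = Module.finrank ℂ (Th n a) := by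
  obtain ⟨f, hf, hfp⟩ := S_F3_of h2 n a p hn
  haveI := (h1 n a (by omega)).1
  have hr := LinearMap.finrank_range_add_finrank_ker (evL n a p)
  have hrange : LinearMap.range (evL n a p) = ⊤ := by
    rw [LinearMap.range_eq_top]
    intro c
    refine ⟨(c / f p) • ⟨f, hf⟩, ?_⟩
    show (c / f p) * f p = c
    field_simp
  rw [hrange, finrank_top] at hr
  simp only [Module.finrank_self] at hr
  omega

theorem S_F4_of (h1 : S_F1) (h2 : S_F2) : S_F4 := by
  obtain ⟨e, th, hth, hne, h0⟩ := h2
  intro n a hn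
  obtain ⟨k, rfl⟩ : ∃ k : ℕ, n = (k : ℤ) + 1 := ⟨(n - 1).toNat, by omega⟩
  clear hn
  induction k generalizing a with
  | zero =>
    have hle := (h1 ((0 : ℕ) + 1) a (by norm_num)).2
    haveI := (h1 ((0 : ℕ) + 1) a (by norm_num)).1
    have hmem : (fun z => th (z - (e - a))) ∈ Th ((0 : ℕ) + 1) a :=
      Th.congr (Th.one hth (e - a)) (by norm_num) (by ring) (fun _ => rfl)
    have hpos : 0 < Module.finrank ℂ (Th ((0 : ℕ) + 1) a) := by
      haveI : Nontrivial (Th (((0 : ℕ) : ℤ) + 1) a) := by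
        refine ⟨⟨⟨_, hmem⟩, 0, ?_⟩⟩
        intro hcon
        have := congrArg Subtype.val hcon
        apply hne
        funext z
        have h3 := congrFun this (z + (e - a))
        simpa using h3
      exact Module.finrank_pos
    omega
  | succ k ih =>
    have hn2 : (2 : ℤ) ≤ ((k + 1 : ℕ) : ℤ) + 1 := by push_cast; omega
    have hle := (h1 (((k + 1 : ℕ) : ℤ) + 1) a (by omega)).2
    haveI := (h1 (((k + 1 : ℕ) : ℤ) + 1) a (by omega)).1
    haveI := (h1 ((k : ℤ) + 1) (a - e) (by omega)).1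
    have hds := dim_step h1 ⟨e, th, hth, hne, h0⟩ (a := a) (p := 0) hn2
    have hk := ih (a - e)
    let μ : Th ((k : ℤ) + 1) (a - e) →ₗ[ℂ] Th (((k + 1 : ℕ) : ℤ) + 1) a :=
      mulL th hth (by push_cast; ring) (by ring)
    have hμ : Function.Injective μ := mulL_inj th hth _ _ hne
    have hin : LinearMap.range μ ≤ LinearMap.ker (evL (((k + 1 : ℕ) : ℤ) + 1) a 0) := by
      rintro _ ⟨f, rfl⟩
      show f.1 0 * th 0 = 0
      rw [h0, mul_zero]
    have h5 := Submodule.finrank_mono hin
    rw [LinearMap.finrank_range_of_inj hμ] at h5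
    omega

theorem S_F5_of (h1 : S_F1) (h2 : S_F2) : S_F5 := by
  intro e th hth hne h0 n a p f hn hf hfp
  haveI := (h1 n a (by omega)).1
  haveI := (h1 (n - 1) (a - e + p) (by omega)).1
  have hds := dim_step h1 h2 (a := a) (p := p) hn
  have hd1 := S_F4_of h1 h2 n a (by omega)
  have hd2 := S_F4_of h1 h2 (n - 1) (a - e + p) (by omega)
  have hthp := Th.one hth p
  have hnep : (fun z => th (z - p)) ≠ 0 := by
    intro hcon
    apply hne
    funext z
    have := congrFun hcon (z + p)
    simpa using this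
  let μ : Th (n - 1) (a - e + p) →ₗ[ℂ] Th n a := mulL (fun z => th (z - p)) hthp (by ring) (by ring)
  have hμ : Function.Injective μ := mulL_inj _ hthp _ _ hnep
  have hin : LinearMap.range μ ≤ LinearMap.ker (evL n a p) := by
    rintro _ ⟨g, rfl⟩
    show g.1 p * th (p - p) = 0
    rw [sub_self, h0, mul_zero]
  have heq : LinearMap.range μ = LinearMap.ker (evL n a p) := by
    apply Submodule.eq_of_le_of_finrank_eq hin
    rw [LinearMap.finrank_range_of_inj hμ]
    omega
  have hfk : (⟨f, hf⟩ : Th n a) ∈ LinearMap.ker (evL n a p) := hfp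
  rw [← heq] at hfk
  obtain ⟨g, hg⟩ := hfk
  refine ⟨g.1, g.2, fun z => ?_⟩
  have := congrFun (congrArg Subtype.val hg) z
  rw [mul_comm]
  exact this.symm

end Pool.Agent.H796H
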