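import Pool.Agent.H796H.Theta
import Pool.Agent.Helper272_TF.D

set_option autoImplicit false

namespace Pool.Agent.H796H

open Complex

theorem f1 : S_F1 := Pool.Agent.Helper272_TF.f1
theorem f4 : S_F4 := Pool.Agent.Helper272_TF.f4
theorem f2 : S_F2 := Pool.Agent.Helper272_TF.f2
theorem f0 : S_F0 := Pool.Agent.Helper272_TF.f0
theorem f3 : S_F3 := S_F3_of f2
theorem f5 : S_F5 := S_F5_of f1 f2

/-- the twist of the basic theta function -/
noncomputable def eth : ℂ := f2.choose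
/-- the basic theta function, zero at the origin -/
noncomputable def th : ℂ → ℂ := f2.choose_spec.choose
theorem th_mem : th ∈ Th 1 eth := f2.choose_spec.choose_spec.1
theorem th_ne : th ≠ 0 := f2.choose_spec.choose_spec.2.1
theorem th_zero : th 0 = 0 := f2.choose_spec.choose_spec.2.2

/-- its translates -/
noncomputable def thp (p : ℂ) : ℂ → ℂ := fun z => th (z - p)

theorem thp_mem (p : ℂ) : thp p ∈ Th 1 (eth - p) := Th.one th_mem p
theorem thp_self (p : ℂ) : thp p p = 0 := by simp [thp, th_zero]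
theorem thp_ne (p : ℂ) : thp p ≠ 0 := by
  intro hcon
  apply th_ne
  funext z
  have := congrFun hcon (z + p)
  simpa [thp] using this

theorem Th.mul' {n m k : ℤ} {a b c : ℂ} {f g : ℂ → ℂ} (hf : f ∈ Th n a) (hg : g ∈ Th m b)
    (hk : n + m = k) (hc : a + b = c) : f * g ∈ Th k c :=
  Th.congr (Th.mul hf hg) hk hc (fun _ => rfl)

theorem ent_mul {f g : ℂ → ℂ} (hf : Differentiable ℂ f) (hg : Differentiable ℂ g)
    (h : f * g = 0) : f = 0 ∨ g = 0 :=
  ent_mul_eq_zero hf hg (fun z => congrFun h z)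

/-- cancellation -/
theorem ent_cancel {f g h : ℂ → ℂ} (hf : Differentiable ℂ f) (hg : Differentiable ℂ g)
    (hh : Differentiable ℂ h) (hne : h ≠ 0) (e : h * f = h * g) : f = g := by
  have h1 : h * (f - g) = 0 := by rw [mul_sub, e, sub_self]
  rcases ent_mul hh (hf.sub hg) h1 with h2 | h2
  · exact absurd h2 hne
  · exact sub_eq_zero.1 h2

theorem bpf {n : ℤ} (hn : 2 ≤ n) (a p : ℂ) : ∃ f ∈ Th n a, f p ≠ 0 := f3 n a p hn

theorem divTh {n : ℤ} {a p : ℂ} {f : ℂ → ℂ} (hn : 2 ≤ n) (hf : f ∈ Th n a) (hp : f p = 0) :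
    ∃ g ∈ Th (n - 1) (a - eth + p), f = thp p * g := by
  obtain ⟨g, hg, h⟩ := f5 eth th th_mem th_ne th_zero n a p f hn hf hp
  exact ⟨g, hg, funext h⟩

theorem dimTh {n : ℤ} (hn : 1 ≤ n) (a : ℂ) : (Module.finrank ℂ (Th n a) : ℤ) = n := f4 n a hn

theorem finTh {n : ℤ} (hn : 1 ≤ n) (a : ℂ) : FiniteDimensional ℂ (Th n a) := (f1 n a hn).1

theorem oneTh {a : ℂ} {f g : ℂ → ℂ} (hf : f ∈ Th 1 a) (hg : g ∈ Th 1 a) (hg0 : g ≠ 0) :
    ∃ c : ℂ, f = c • g := by
  have h1 : Module.finrank ℂ (Th 1 a) = 1 := by exact_mod_cast dimTh (n := 1) le_rfl a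
  have hne : (⟨g, hg⟩ : Th 1 a) ≠ 0 := fun h => hg0 (congrArg Subtype.val h)
  obtain ⟨c, hc⟩ := exists_smul_eq_of_finrank_eq_one h1 hne (⟨f, hf⟩ : Th 1 a)
  exact ⟨c, (congrArg Subtype.val hc).symm⟩

theorem oneTh' {a : ℂ} {f : ℂ → ℂ} (hf : f ∈ Th 1 a) : ∃ c : ℂ, f = c • thp (eth - a) :=
  oneTh hf (Th.congr (thp_mem (eth - a)) rfl (by ring) (fun _ => rfl)) (thp_ne _)

/-- degree zero, trivial twist: constants -/
theorem zeroTh {f : ℂ → ℂ} (hf : f ∈ Th 0 0) : ∃ c : ℂ, f = fun _ => c := by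
  have h1 : f * th ∈ Th 1 eth := Th.mul' hf th_mem (by norm_num) (by ring)
  obtain ⟨c, hc⟩ := oneTh h1 th_mem th_ne
  refine ⟨c, ?_⟩
  apply ent_cancel hf.1 (differentiable_const c) th_mem.1 th_ne
  rw [mul_comm, hc]
  funext z
  simp [mul_comm]

theorem constTh (c : ℂ) : (fun _ => c) ∈ Th 0 0 :=
  ⟨differentiable_const c, fun _ => rfl, fun z => by simp⟩

/-- negative degree: zero -/
theorem negTh {n : ℤ} (hn : n < 0) {a : ℂ} {f : ℂ → ℂ} (hf : f ∈ Th n a) : f = 0 := by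
  by_contra hne
  have := finTh (n := 1) le_rfl (a := 0)
  have hinj := mulL_inj (n := 1 - n) (k := 1) (a := -a) (c := 0) f hf (by ring) (by ring) hne
  have h1 := LinearMap.finrank_le_finrank_of_injective hinj
  have h2 := dimTh (n := 1 - n) (by omega) (-a)
  have h3 := dimTh (n := 1) le_rfl 0
  omega

/-- elements of degree two are products -/
theorem twoTh {a : ℂ} {f : ℂ → ℂ} (hf : f ∈ Th 2 a) (hne : f ≠ 0) :
    ∃ (r s c : ℂ), c ≠ 0 ∧ r + s = 2 * eth - a ∧ f = c • (thp r * thp s) := by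
  obtain ⟨r, hr⟩ := f0 2 a f (by norm_num) hf
  obtain ⟨g, hg, hfg⟩ := divTh le_rfl hf hr
  obtain ⟨c, hc⟩ := oneTh' (a := a - eth + r) hg
  refine ⟨r, eth - (a - eth + r), c, ?_, by ring, ?_⟩
  · rintro rfl
    apply hne
    rw [hfg, hc, zero_smul, mul_zero]
  · rw [hfg, hc, mul_smul_comm]

/-- two independent functions of degree two have no common zero -/
theorem noCommon {a : ℂ} {u v : ℂ → ℂ} (hu : u ∈ Th 2 a) (hv : v ∈ Th 2 a)
    (hind : ∀ c d : ℂ, c • u + d • v = 0 → c = 0 ∧ d = 0) (r : ℂ) (hur : u r = 0) :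
    v r ≠ 0 := by
  intro hvr
  obtain ⟨g, hg, hgu⟩ := divTh le_rfl hu hur
  obtain ⟨k, hk, hkv⟩ := divTh le_rfl hv hvr
  have hg' : g ∈ Th 1 (a - eth + r) := hg
  have hk' : k ∈ Th 1 (a - eth + r) := hk
  by_cases hk0 : k = 0
  · have := hind 0 1 (by rw [hkv, hk0]; simp)
    exact one_ne_zero this.2
  · obtain ⟨c, hc⟩ := oneTh hg' hk' hk0
    have := hind 1 (-c) (by rw [hgu, hkv, hc]; simp)
    exact one_ne_zero this.1

/-- kernel of a pencil -/
theorem pencil_ker {n : ℤ} (hn : 3 ≤ n) {a c : ℂ} {u v p q : ℂ → ℂ} (hu : u ∈ Th 2 a)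
    (hv : v ∈ Th 2 a) (hind : ∀ c d : ℂ, c • u + d • v = 0 → c = 0 ∧ d = 0)
    (hp : p ∈ Th n c) (hq : q ∈ Th n c) (h : p * u + q * v = 0) :
    ∃ f ∈ Th (n - 2) (c - a), p = -(f * v) ∧ q = f * u := by
  have hv0 : v ≠ 0 := by
    rintro rfl
    exact one_ne_zero (hind 0 1 (by simp)).2
  obtain ⟨r, s, d, hd, hrs, hvf⟩ := twoTh hv hv0
  have hvr : v r = 0 := by rw [hvf]; simp [thp_self]
  have hvs : v s = 0 := by rw [hvf]; simp [thp_self]
  have hur : u r ≠ 0 := fun h0 => noCommon hu hv hind r h0 hvr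
  have hus : u s ≠ 0 := fun h0 => noCommon hu hv hind s h0 hvs
  have hpr : p r = 0 := by
    have := congrFun h r
    simp only [Pi.add_apply, Pi.mul_apply, Pi.zero_apply, hvr, mul_zero, add_zero] at this
    exact (mul_eq_zero.1 this).resolve_right hur
  obtain ⟨p1, hp1, hpp1⟩ := divTh (by omega) hp hpr
  -- cancel thp r
  have h2 : p1 * u + d • (q * thp s) = 0 := by
    have e1 : thp r * (p1 * u + d • (q * thp s)) = thp r * 0 := by
      rw [mul_zero, ← h, hpp1, hvf]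
      funext z
      simp only [Pi.add_apply, Pi.mul_apply, Pi.smul_apply, smul_eq_mul]
      ring
    refine ent_cancel ?_ (differentiable_const 0) (thp_mem r).1 (thp_ne r) e1
    exact (hp1.1.mul hu.1).add ((hq.1.mul (thp_mem s).1).const_smul d)
  have hps : p1 s = 0 := by
    have := congrFun h2 s
    simp only [Pi.add_apply, Pi.mul_apply, Pi.smul_apply, Pi.zero_apply, thp_self, mul_zero,
      smul_zero, add_zero] at this
    exact (mul_eq_zero.1 this).resolve_right hus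
  obtain ⟨p2, hp2, hpp2⟩ := divTh (by omega) hp1 hps
  refine ⟨-(d⁻¹) • p2, ?_, ?_, ?_⟩
  · refine (Th (n - 2) (c - a)).smul_mem _ (Th.congr hp2 (by ring) ?_ (fun _ => rfl))
    linear_combination hrs
  · rw [hpp1, hpp2, hvf]
    funext z
    simp only [Pi.neg_apply, Pi.mul_apply, Pi.smul_apply, smul_eq_mul]
    field_simp
  · have e1 : thp s * q = thp s * (-(d⁻¹) • p2 * u) := by
      have h3 : p1 * u + d • (q * thp s) = 0 := h2
      rw [hpp2] at h3
      funext z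
      have h4 := congrFun h3 z
      simp only [Pi.add_apply, Pi.mul_apply, Pi.smul_apply, smul_eq_mul, Pi.zero_apply] at h4
      simp only [Pi.mul_apply, Pi.smul_apply, smul_eq_mul]
      field_simp
      linear_combination h4
    exact ent_cancel hq.1 ((hp2.1.const_smul _).mul hu.1) (thp_mem s).1 (thp_ne s) e1

/-- the pencil map is onto, in the middle range -/
theorem pencil_onto {n : ℤ} (hn : 3 ≤ n) {a c : ℂ} {u v h : ℂ → ℂ} (hu : u ∈ Th 2 a)
    (hv : v ∈ Th 2 a) (hind : ∀ c d : ℂ, c • u + d • v = 0 → c = 0 ∧ d = 0)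
    (hh : h ∈ Th (n + 2) (c + a)) :
    ∃ p ∈ Th n c, ∃ q ∈ Th n c, h = p * u + q * v := by
  have := finTh (n := n) (by omega) c
  have := finTh (n := n + 2) (by omega) (c + a)
  have := finTh (n := n - 2) (by omega) (c - a)
  let Φ : (Th n c × Th n c) →ₗ[ℂ] Th (n + 2) (c + a) :=
    LinearMap.coprod (mulL u hu rfl rfl) (mulL v hv rfl rfl)
  let K : Th (n - 2) (c - a) →ₗ[ℂ] (Th n c × Th n c) :=
    LinearMap.prod (-(mulL v hv (by ring) (by ring))) (mulL u hu (by ring) (by ring))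
  have hker : LinearMap.ker Φ ≤ LinearMap.range K := by
    rintro ⟨p, q⟩ hpq
    have h1 : p.1 * u + q.1 * v = 0 := congrArg Subtype.val hpq
    obtain ⟨f, hf, h2, h3⟩ := pencil_ker hn hu hv hind p.2 q.2 h1
    refine ⟨⟨f, hf⟩, ?_⟩
    apply Prod.ext
    · apply Subtype.ext
      exact h2.symm
    · apply Subtype.ext
      exact h3.symm
  have h1 := LinearMap.finrank_range_add_finrank_ker Φ
  have h2 := Submodule.finrank_mono hker
  have h3 := LinearMap.finrank_range_le K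
  have d1 := dimTh (n := n) (by omega) c
  have d2 := dimTh (n := n + 2) (by omega) (c + a)
  have d3 := dimTh (n := n - 2) (by omega) (c - a)
  rw [Module.finrank_prod] at h1
  have h4 : Module.finrank ℂ (LinearMap.range Φ) = Module.finrank ℂ (Th (n + 2) (c + a)) := by
    have := Submodule.finrank_le (LinearMap.range Φ)
    omega
  have h5 : LinearMap.range Φ = ⊤ := Submodule.eq_top_of_finrank_eq h4
  have h6 : (⟨h, hh⟩ : Th (n + 2) (c + a)) ∈ LinearMap.range Φ := by rw [h5]; trivial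
  obtain ⟨⟨p, q⟩, hpq⟩ := h6
  exact ⟨p.1, p.2, q.1, q.2, (congrArg Subtype.val hpq).symm⟩

end Pool.Agent.H796H
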